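import Pool.Agent.H22.Fib.Main

/-!
# The dimension of the Fibonacci spectrum is non-increasing in the coupling

The Hamiltonian `ham lam om` is defined in `Pool.Agent.H22.Fib.Ham`, the rotation number `alpha`
and the potential `fibV` in `Pool.Agent.H22.Fib.Defs`.

Outline of the proof. All bands of all periodic approximants shrink when the coupling grows: the
band edges move with the velocity `v = - (∂ t / ∂ lam) / (∂ t / ∂ E)`, where `t` is the trace
polynomial, and `v` is a constant plus a sum of simple poles at the critical points of `t`, with
non-negative residues. The residues do not change sign because `t` has no critical point as a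
function of both variables (monotone paths in `SL(2, ℝ)`). A covering of the spectrum at the
coupling `lam1` is then turned into a covering of the spectrum at the coupling `lam2` by bands of
the approximants, using the comparison of the integrated densities of states.
-/

set_option autoImplicit false

namespace Pool.Agent.Results.MP_d67da9_mp.DimensionMonotone

open Pool.Agent.H22.Fib

/-- For all couplings `0 < lam1 ≤ lam2` and all phases `om1, om2`, the Hausdorff dimension of the
spectrum of the Fibonacci Hamiltonian `H_{lam2, om2}` is at most that of `H_{lam1, om1}`. -/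
theorem result (lam1 lam2 om1 om2 : ℝ) (h1 : 0 < lam1) (h12 : lam1 ≤ lam2) :
    dimH {E : ℝ | (E : ℂ) ∈ spectrum ℂ (ham lam2 om2)} ≤
      dimH {E : ℝ | (E : ℂ) ∈ spectrum ℂ (ham lam1 om1)} :=
  main lam1 lam2 om1 om2 h1 h12

/-- The action of the Hamiltonian. -/
theorem ham_formula (lam om : ℝ) (f : ell2) (n : ℤ) :
    ham lam om f n = f (n + 1) + f (n - 1) +
      ((lam * Set.indicator (Set.Ico (1 - (Real.sqrt 5 - 1) / 2) 1) (fun _ => (1 : ℝ))
        (Int.fract ((n : ℝ) * ((Real.sqrt 5 - 1) / 2) + om)) : ℝ) : ℂ) * f n := rfl

end Pool.Agent.Results.MP_d67da9_mp.DimensionMonotone
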